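import Pool.Agent.Interstr.Main

/-!
# Models of Peano arithmetic: algebra, order, least elements
-/

open FirstOrder FirstOrder.Language FirstOrder.Ring

namespace Pool.InterPA

open Pool.Interstr

/-- The axioms of Peano arithmetic for a commutative semiring, in the language of rings
(negation is the identity); induction is for all sets definable with parameters. -/
structure IsPA (A : Type) [CommSemiring A] [Neg A] [CompatibleRing A] : Prop where
  neg_eq : ∀ x : A, -x = x
  succ_ne_zero : ∀ x : A, x + 1 ≠ 0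
  succ_inj : ∀ x y : A, x + 1 = y + 1 → x = y
  induction : ∀ s : Set (Fin 1 → A), (Set.univ : Set A).Definable Language.ring s →
    (fun _ : Fin 1 => (0 : A)) ∈ s →
    (∀ x : A, (fun _ : Fin 1 => x) ∈ s → (fun _ : Fin 1 => x + 1) ∈ s) →
    ∀ x : A, (fun _ : Fin 1 => x) ∈ s

section

variable {A : Type} [CommSemiring A] [Neg A] [CompatibleRing A]

/-- induction for a formula with parameters -/
theorem IsPA.ind (hA : IsPA A) {α : Type} (φ : Language.ring.Formula (α ⊕ Fin 1)) (v : α → A)
    (h0 : φ.Realize (Sum.elim v (fun _ => 0)))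
    (h1 : ∀ x, φ.Realize (Sum.elim v (fun _ => x)) → φ.Realize (Sum.elim v (fun _ => x + 1))) :
    ∀ x, φ.Realize (Sum.elim v (fun _ => x)) := by
  have hd := definable_of_formula (α := Fin 1) (Set.univ : Set A) φ
    (Sum.elim (fun a => Sum.inl ⟨v a, trivial⟩) (fun i => Sum.inr i))
  have he : {w : Fin 1 → A | φ.Realize (fun i => Sum.elim (fun a : (Set.univ : Set A) => (a : A)) w
      ((Sum.elim (fun a => Sum.inl ⟨v a, trivial⟩) (fun i => Sum.inr i) :
        α ⊕ Fin 1 → (Set.univ : Set A) ⊕ Fin 1) i))} = {w | φ.Realize (Sum.elim v w)} := by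
    ext w
    rw [Set.mem_ofPred_eq, Set.mem_ofPred_eq]
    refine iff_of_eq (congrArg _ ?_)
    funext i
    rcases i with i | i <;> simp
  rw [he] at hd
  intro x
  exact hA.induction _ hd h0 (fun x hx => h1 x hx) x

theorem IsPA.add_right_cancel (hA : IsPA A) {a b c : A} (h : a + c = b + c) : a = b := by
  have key := hA.ind (α := Fin 2)
    ((Term.equal (Term.var (Sum.inl 0) + Term.var (Sum.inr 0))
      (Term.var (Sum.inl 1) + Term.var (Sum.inr 0))).imp
        (Term.equal (Term.var (Sum.inl 0)) (Term.var (Sum.inl 1)))) ![a, b] (by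
      rw [Formula.realize_imp, Formula.realize_equal, Formula.realize_equal]
      simp) (by
      intro x h
      rw [Formula.realize_imp, Formula.realize_equal, Formula.realize_equal] at h ⊢
      simp only [realize_add, Term.realize_var, Sum.elim_inl, Sum.elim_inr,
        Matrix.cons_val_zero, Matrix.cons_val_one] at h ⊢
      intro h2
      apply h
      apply hA.succ_inj
      rw [add_assoc, add_assoc]
      exact h2) c
  rw [Formula.realize_imp, Formula.realize_equal, Formula.realize_equal] at key
  simpa using key (by simpa using h)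

theorem IsPA.add_left_cancel (hA : IsPA A) {a b c : A} (h : c + a = c + b) : a = b := by
  rw [add_comm c a, add_comm c b] at h
  exact hA.add_right_cancel h

theorem IsPA.zero_or_succ (hA : IsPA A) (a : A) : a = 0 ∨ ∃ b, a = b + 1 := by
  have key := hA.ind (α := Fin 0)
    (((Term.var (Sum.inr 0)).equal 0) ⊔
      (((Term.var (Sum.inl (Sum.inr 0))).equal (Term.var (Sum.inr 0) + 1)).iExs (Fin 1))) ![] (by
      rw [Formula.realize_sup, Formula.realize_equal]
      left
      simp) (by
      intro x _
      rw [Formula.realize_sup, Formula.realize_iExs, exists_fin_one]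
      right
      refine ⟨x, ?_⟩
      rw [Formula.realize_equal]
      simp) a
  rw [Formula.realize_sup, Formula.realize_iExs, exists_fin_one, Formula.realize_equal] at key
  simp only [Formula.realize_equal] at key
  simpa using key

theorem IsPA.eq_zero_of_add (hA : IsPA A) {a b : A} (h : a + b = 0) : a = 0 ∧ b = 0 := by
  rcases hA.zero_or_succ b with rfl | ⟨c, rfl⟩
  · exact ⟨by simpa using h, rfl⟩
  · exact absurd (by rw [add_assoc]; exact h) (hA.succ_ne_zero (a + c))

theorem IsPA.le_total (hA : IsPA A) (a b : A) : Le a b ∨ Le b a := by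
  have key := hA.ind (α := Fin 1)
    ((leF (Term.var (Sum.inr 0)) (Term.var (Sum.inl 0))) ⊔
      (leF (Term.var (Sum.inl 0)) (Term.var (Sum.inr 0)))) ![b] (by
      rw [Formula.realize_sup, realize_le]
      left
      exact ⟨b, by simp⟩) (by
      intro x h
      rw [Formula.realize_sup, realize_le, realize_le] at h ⊢
      simp only [Term.realize_var, Sum.elim_inl, Sum.elim_inr, Matrix.cons_val_fin_one] at h ⊢
      rcases h with ⟨z, hz⟩ | ⟨z, hz⟩
      · rcases hA.zero_or_succ z with rfl | ⟨w, rfl⟩
        · right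
          exact ⟨1, by rw [← hz]; ring⟩
        · left
          exact ⟨w, by rw [← hz]; ring⟩
      · right
        exact ⟨z + 1, by rw [← hz]; ring⟩) a
  rw [Formula.realize_sup, realize_le, realize_le] at key
  simpa using key

theorem IsPA.le_antisymm (hA : IsPA A) {a b : A} (h1 : Le a b) (h2 : Le b a) : a = b := by
  obtain ⟨z, rfl⟩ := h1
  obtain ⟨w, hw⟩ := h2
  have h3 : a + (z + w) = a + 0 := by rw [← add_assoc, hw, add_zero]
  have h4 := (hA.eq_zero_of_add (hA.add_left_cancel h3)).1
  rw [h4, add_zero]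

theorem IsPA.lt_or_le (hA : IsPA A) (a b : A) : Lt a b ∨ Le b a := by
  rcases hA.le_total a b with ⟨z, hz⟩ | h
  · rcases hA.zero_or_succ z with rfl | ⟨w, rfl⟩
    · right
      rw [add_zero] at hz
      rw [hz]
      exact le_refl' b
    · left
      exact ⟨w, by rw [← hz]; ring⟩
  · right; exact h

theorem IsPA.lt_asymm (hA : IsPA A) {a b : A} (h1 : Lt a b) (h2 : Le b a) : False := by
  obtain ⟨z, rfl⟩ := h1
  obtain ⟨w, hw⟩ := h2
  have h3 : a + (z + w + 1) = a + 0 := by
    rw [add_zero]
    calc a + (z + w + 1) = a + z + 1 + w := by ring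
      _ = a := hw
  exact hA.succ_ne_zero _ (hA.add_left_cancel h3)

theorem IsPA.mul_ne_zero (hA : IsPA A) {a b : A} (ha : a ≠ 0) (hb : b ≠ 0) : a * b ≠ 0 := by
  rcases hA.zero_or_succ a with rfl | ⟨c, rfl⟩
  · exact absurd rfl ha
  · rcases hA.zero_or_succ b with rfl | ⟨d, rfl⟩
    · exact absurd rfl hb
    · have : (c + 1) * (d + 1) = (c * d + c + d) + 1 := by ring
      rw [this]
      exact hA.succ_ne_zero _

/-- least number principle -/
theorem IsPA.exists_least (hA : IsPA A) {α : Type} (φ : Language.ring.Formula (α ⊕ Fin 1))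
    (v : α → A) (h : ∃ x : A, φ.Realize (Sum.elim v (fun _ => x))) :
    ∃ x : A, φ.Realize (Sum.elim v (fun _ => x)) ∧
      ∀ z : A, φ.Realize (Sum.elim v (fun _ => z)) → Le x z := by
  by_contra hcon
  push Not at hcon
  have key := hA.ind (α := α)
    (((leF (Term.var (Sum.inr 0)) (Term.var (Sum.inl (Sum.inr 0)))).imp
      (φ.relabel (Sum.map Sum.inl id) : Language.ring.Formula ((α ⊕ Fin 1) ⊕ Fin 1)).not).iAlls
        (Fin 1)) v
  simp only [Formula.realize_iAlls, forall_fin_one, Formula.realize_imp, Formula.realize_not,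
    Formula.realize_relabel, realize_le, Term.realize_var, Sum.elim_inr, Sum.elim_inl,
    elim_map] at key
  obtain ⟨x, hx⟩ := h
  refine key ?_ ?_ x x (le_refl' x) hx
  · intro z hz hφ
    have hz0 : z = 0 := hA.le_antisymm hz ⟨z, by simp⟩
    subst hz0
    obtain ⟨w, hw, hw'⟩ := hcon 0 hφ
    exact hw' ⟨w, by simp⟩
  · intro y hy z hz hφ
    obtain ⟨w, hw, hw'⟩ := hcon z hφ
    have hwz : Lt w z := (hA.lt_or_le w z).resolve_right hw'
    obtain ⟨t, ht⟩ := hwz
    obtain ⟨r, hr⟩ := hz
    refine hy w ⟨t + r, ?_⟩ hw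
    apply hA.succ_inj
    rw [← hr, ← ht]
    ring

end

end Pool.InterPA
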