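import Pool.Agent.InterPA.Transfer

/-!
# Coding of bounded definable sets in models of PA
-/

open FirstOrder FirstOrder.Language FirstOrder.Ring

namespace Pool.InterPA

open Pool.Interstr

section

variable {A : Type} [CommSemiring A] [Neg A] [CompatibleRing A]

/-! ### monotonicity and injectivity of the index of a tuple -/

omit [Neg A] [CompatibleRing A] in
lemma le_add {a b c d : A} (h1 : Le a b) (h2 : Le c d) : Le (a + c) (b + d) := by
  obtain ⟨z, rfl⟩ := h1
  obtain ⟨w, rfl⟩ := h2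
  exact ⟨z + w, by ring⟩

omit [Neg A] [CompatibleRing A] in
lemma le_mul {a b c d : A} (h1 : Le a b) (h2 : Le c d) : Le (a * c) (b * d) := by
  obtain ⟨z, rfl⟩ := h1
  obtain ⟨w, rfl⟩ := h2
  exact ⟨a * w + z * c + z * w, by ring⟩

omit [Neg A] [CompatibleRing A] in
lemma idxV_mono {κ : Type} (l : List κ) {w w' : κ → A} (h : ∀ i, Le (w i) (w' i)) :
    Le (idxV (l.map w)) (idxV (l.map w')) := by
  induction l with
  | nil => exact le_refl' _
  | cons a l ih =>
    simp only [List.map_cons, idxV]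
    exact le_add (le_mul (le_add (h a) ih) (le_add (h a) ih)) (h a)

omit [Neg A] [CompatibleRing A] in
lemma cod_mono {κ : Type} [Fintype κ] {w w' : κ → A} (h : ∀ i, Le (w i) (w' i)) :
    Le (cod w) (cod w') := idxV_mono _ h

lemma IsPA.pair_lt (hA : IsPA A) {a b c d : A} (h : Lt (a + b) (c + d)) :
    (a + b) * (a + b) + a ≠ (c + d) * (c + d) + c := by
  obtain ⟨e, he⟩ := h
  intro hcon
  rw [← he] at hcon
  have h1 : ((a + b) * (a + b) + a) + 0 = ((a + b) * (a + b) + a) +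
      ((a + 2 * b + 2 * (a + b) * e + 2 * e + e * e + c) + 1) := by
    rw [add_zero]
    conv_lhs => rw [hcon]
    ring
  exact hA.succ_ne_zero _ (hA.add_left_cancel h1).symm

lemma IsPA.pair_inj (hA : IsPA A) {a b c d : A}
    (h : (a + b) * (a + b) + a = (c + d) * (c + d) + c) : a = c ∧ b = d := by
  rcases hA.lt_or_le (a + b) (c + d) with h1 | h1
  · exact absurd h (hA.pair_lt h1)
  · rcases hA.lt_or_le (c + d) (a + b) with h2 | h2
    · exact absurd h.symm (hA.pair_lt h2)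
    · have h3 := hA.le_antisymm h1 h2
      rw [h3] at h
      have h4 := hA.add_left_cancel h
      refine ⟨h4, ?_⟩
      rw [h4] at h3
      exact (hA.add_left_cancel h3).symm

lemma IsPA.idxV_inj (hA : IsPA A) : ∀ l l' : List A, l.length = l'.length →
    idxV l = idxV l' → l = l' := by
  intro l
  induction l with
  | nil =>
    intro l' h _
    cases l' with
    | nil => rfl
    | cons _ _ => simp at h
  | cons a l ih =>
    intro l' h h'
    cases l' with
    | nil => simp at h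
    | cons b l' =>
      obtain ⟨h1, h2⟩ := hA.pair_inj h'
      rw [h1, ih l' (by simpa using h) h2]

lemma IsPA.cod_inj (hA : IsPA A) {κ : Type} [Fintype κ] {w w' : κ → A} (h : cod w = cod w') :
    w = w' := by
  have h1 := hA.idxV_inj _ _ (by simp) h
  funext i
  exact (List.map_inj_left.mp h1) i (by simp)

/-! ### divisibility -/

omit [Neg A] [CompatibleRing A] in
lemma dvd_mul_right' {a b : A} (h : Dvd' a b) (c : A) : Dvd' a (b * c) := by
  obtain ⟨z, rfl⟩ := h
  exact ⟨z * c, by ring⟩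

omit [Neg A] [CompatibleRing A] in
lemma dvd_add' {a b c : A} (h : Dvd' a b) (h' : Dvd' a c) : Dvd' a (b + c) := by
  obtain ⟨z, rfl⟩ := h
  obtain ⟨w, rfl⟩ := h'
  exact ⟨z + w, by ring⟩

lemma IsPA.dvd_of_dvd_add (hA : IsPA A) {d a b : A} (h1 : Dvd' d (a + b)) (h2 : Dvd' d a) :
    Dvd' d b := by
  obtain ⟨y, hy⟩ := h1
  obtain ⟨x, hx⟩ := h2
  rcases hA.le_total x y with ⟨z, hz⟩ | ⟨z, hz⟩
  · refine ⟨z, hA.add_left_cancel (c := a) ?_⟩
    rw [← hy, ← hz, ← hx]
    ring
  · have h3 : d * y + (d * z + b) = d * y + 0 := by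
      rw [add_zero]
      conv_rhs => rw [hy]
      rw [← hx, ← hz]
      ring
    have h4 := (hA.eq_zero_of_add (hA.add_left_cancel h3)).2
    rw [h4]
    exact ⟨0, by ring⟩

/-- the moduli -/
def md (q j : A) : A := 1 + (j + 1) * q

lemma IsPA.dvd_of_dvd_mul_q (hA : IsPA A) {q i s : A} (h : Dvd' (md q i) (s * q)) :
    Dvd' (md q i) s := by
  apply hA.dvd_of_dvd_add (a := s * q * (i + 1))
  · refine ⟨s, ?_⟩
    rw [md]
    ring
  · exact dvd_mul_right' h _

/-- coprimality of the moduli -/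
lemma IsPA.dvd_of_dvd_mul_md (hA : IsPA A) {I q : A} (hq : ∀ i, Le i I → Dvd' (i + 1) q)
    {i j s : A} (hi : Le i I) (hj : Le j I) (hij : i ≠ j) (h : Dvd' (md q i) (s * md q j)) :
    Dvd' (md q i) s := by
  -- the main step
  have step : ∀ δ : A, Le (δ + 1) I → Dvd' (md q i) (s * (δ + 1) * q) → Dvd' (md q i) s := by
    intro δ hδ h1
    have h2 : Dvd' (md q i) (s * (δ + 1)) := hA.dvd_of_dvd_mul_q h1
    obtain ⟨q', hq'⟩ := hq δ (le_trans' ⟨1, rfl⟩ hδ)
    apply hA.dvd_of_dvd_mul_q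
    have e : s * q = (s * (δ + 1)) * q' := by rw [mul_assoc, hq']
    rw [e]
    exact dvd_mul_right' h2 _
  rcases hA.lt_or_le i j with ⟨δ, hδ⟩ | hji
  · apply step δ
    · refine le_trans' ⟨i, ?_⟩ hj
      rw [← hδ]; ring
    · apply hA.dvd_of_dvd_add (a := s * md q i)
      · have : s * md q i + s * (δ + 1) * q = s * md q j := by
          rw [← hδ, md, md]; ring
        rw [this]; exact h
      · exact ⟨s, by ring⟩
  · have hlt : Lt j i := by
      rcases hA.lt_or_le j i with h1 | h1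
      · exact h1
      · exact absurd (hA.le_antisymm h1 hji) hij
    obtain ⟨δ, hδ⟩ := hlt
    apply step δ
    · refine le_trans' ⟨j, ?_⟩ hi
      rw [← hδ]; ring
    · apply hA.dvd_of_dvd_add (a := s * md q j)
      · have : s * md q j + s * (δ + 1) * q = s * md q i := by
          rw [← hδ, md, md]; ring
        rw [this]; exact ⟨s, by ring⟩
      · exact h

lemma IsPA.not_md_dvd_one (hA : IsPA A) {q j : A} (hq : q ≠ 0) : ¬ Dvd' (md q j) 1 := by
  rintro ⟨z, hz⟩
  rcases hA.zero_or_succ z with rfl | ⟨w, rfl⟩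
  · have h1 : (0 : A) + 1 = 0 := by rw [zero_add, ← hz, mul_zero]
    exact hA.succ_ne_zero _ h1
  · have h1 : 1 + ((j + 1) * q * (w + 1) + w) = 1 + 0 := by
      calc 1 + ((j + 1) * q * (w + 1) + w) = md q j * (w + 1) := by rw [md]; ring
        _ = 1 + 0 := by rw [hz, add_zero]
    have h2 := (hA.eq_zero_of_add (hA.add_left_cancel h1)).1
    exact hA.mul_ne_zero (hA.mul_ne_zero (hA.succ_ne_zero j) hq) (hA.succ_ne_zero w) h2

lemma IsPA.lt_succ_iff (hA : IsPA A) {a b : A} : Lt a (b + 1) ↔ Le a b := by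
  constructor
  · rintro ⟨z, hz⟩
    exact ⟨z, hA.succ_inj _ _ hz⟩
  · rintro ⟨z, hz⟩
    exact ⟨z, by rw [hz]⟩

lemma IsPA.lt_succ_iff' (hA : IsPA A) {a b : A} : Lt a (b + 1) ↔ Lt a b ∨ a = b := by
  rw [hA.lt_succ_iff]
  constructor
  · intro h
    rcases hA.lt_or_le a b with h1 | h1
    · exact Or.inl h1
    · exact Or.inr (hA.le_antisymm h h1)
  · rintro (⟨z, hz⟩ | rfl)
    · exact ⟨z + 1, by rw [← hz]; ring⟩
    · exact le_refl' _

/-! ### existence of the numbers `q` and `B` -/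

lemma IsPA.exists_q (hA : IsPA A) (I : A) : ∃ q : A, q ≠ 0 ∧ ∀ i, Le i I → Dvd' (i + 1) q := by
  have key := hA.ind (α := Fin 0)
    (((Term.equal (Term.var (Sum.inr 0) : Language.ring.Term ((Fin 0 ⊕ Fin 1) ⊕ Fin 1)) 0).not ⊓
      (((leF (Term.var (Sum.inr 0)) (Term.var (Sum.inl (Sum.inl (Sum.inr 0))))).imp
        (dvdF (Term.var (Sum.inr 0) + 1) (Term.var (Sum.inl (Sum.inr 0))))).iAlls (Fin 1) :
          Language.ring.Formula ((Fin 0 ⊕ Fin 1) ⊕ Fin 1))).iExs (Fin 1)) ![]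
  simp only [Formula.realize_iExs, exists_fin_one, Formula.realize_inf, Formula.realize_not,
    Formula.realize_equal, Formula.realize_iAlls, forall_fin_one, Formula.realize_imp,
    realize_le, realize_dvdF, Term.realize_var, Sum.elim_inl, Sum.elim_inr, realize_zero,
    realize_add, realize_one] at key
  refine key ?_ ?_ I
  · refine ⟨1, ?_, ?_⟩
    · intro h
      exact hA.succ_ne_zero 0 (by rw [zero_add]; exact h)
    · intro i hi
      have : i = 0 := hA.le_antisymm hi ⟨i, by simp⟩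
      exact ⟨1, by rw [this]; simp⟩
  · rintro x ⟨q, hq, h⟩
    refine ⟨q * (x + 1 + 1), hA.mul_ne_zero hq (hA.succ_ne_zero _), fun i hi => ?_⟩
    rcases hA.lt_succ_iff'.1 (hA.lt_succ_iff.2 hi) with h1 | h1
    · obtain ⟨z, hz⟩ := h i (hA.lt_succ_iff.1 h1)
      exact ⟨z * (x + 1 + 1), by rw [← mul_assoc, hz]⟩
    · exact ⟨q, by rw [h1]; ring⟩

lemma IsPA.exists_B (hA : IsPA A) (I q : A) :
    ∃ B : A, B ≠ 0 ∧ ∀ i, Le i I → Dvd' (md q i) B := by
  have key := hA.ind (α := Fin 1)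
    (((Term.equal (Term.var (Sum.inr 0) : Language.ring.Term ((Fin 1 ⊕ Fin 1) ⊕ Fin 1)) 0).not ⊓
      (((leF (Term.var (Sum.inr 0)) (Term.var (Sum.inl (Sum.inl (Sum.inr 0))))).imp
        (dvdF (1 + (Term.var (Sum.inr 0) + 1) * Term.var (Sum.inl (Sum.inl (Sum.inl 0))))
          (Term.var (Sum.inl (Sum.inr 0))))).iAlls (Fin 1) :
          Language.ring.Formula ((Fin 1 ⊕ Fin 1) ⊕ Fin 1))).iExs (Fin 1)) ![q]
  simp only [Formula.realize_iExs, exists_fin_one, Formula.realize_inf, Formula.realize_not,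
    Formula.realize_equal, Formula.realize_iAlls, forall_fin_one, Formula.realize_imp,
    realize_le, realize_dvdF, Term.realize_var, Sum.elim_inl, Sum.elim_inr, realize_zero,
    realize_add, realize_one, realize_mul, Matrix.cons_val_fin_one] at key
  have hmd : ∀ i : A, md q i ≠ 0 := by
    intro i h
    rw [md, add_comm] at h
    exact hA.succ_ne_zero _ h
  refine key ?_ ?_ I
  · refine ⟨md q 0, hmd 0, ?_⟩
    · intro i hi
      have : i = 0 := hA.le_antisymm hi ⟨i, by simp⟩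
      exact ⟨1, by rw [this, md]; ring⟩
  · rintro x ⟨B, hB, h⟩
    refine ⟨B * md q (x + 1), hA.mul_ne_zero hB (hmd _), fun i hi => ?_⟩
    rcases hA.lt_succ_iff'.1 (hA.lt_succ_iff.2 hi) with h1 | h1
    · obtain ⟨z, hz⟩ := h i (hA.lt_succ_iff.1 h1)
      exact ⟨z * md q (x + 1), by rw [← mul_assoc, hz]⟩
    · exact ⟨B, by rw [h1, md]; ring⟩

lemma IsPA.exists_div (hA : IsPA A) {B : A} (hB : B ≠ 0) (s : A) :
    ∃ z r, s = B * z + r ∧ Le r B := by
  have key := hA.ind (α := Fin 1)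
    ((((Term.equal (Term.var (Sum.inl (Sum.inl (Sum.inr 0))) :
        Language.ring.Term (((Fin 1 ⊕ Fin 1) ⊕ Fin 1) ⊕ Fin 1))
        (Term.var (Sum.inl (Sum.inl (Sum.inl 0))) * Term.var (Sum.inl (Sum.inr 0)) +
          Term.var (Sum.inr 0)) ⊓
        ltF (Term.var (Sum.inr 0)) (Term.var (Sum.inl (Sum.inl (Sum.inl 0))))).iExs (Fin 1) :
        Language.ring.Formula ((Fin 1 ⊕ Fin 1) ⊕ Fin 1))).iExs (Fin 1)) ![B]
  simp only [Formula.realize_iExs, exists_fin_one, Formula.realize_inf,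
    Formula.realize_equal, realize_lt, Term.realize_var, Sum.elim_inl, Sum.elim_inr,
    realize_add, realize_mul, Matrix.cons_val_fin_one] at key
  have base : ∃ z r : A, 0 = B * z + r ∧ Lt r B := by
    refine ⟨0, 0, by ring, ?_⟩
    rcases hA.zero_or_succ B with rfl | ⟨c, rfl⟩
    · exact absurd rfl hB
    · exact ⟨c, by ring⟩
  have stp : ∀ x : A, (∃ z r : A, x = B * z + r ∧ Lt r B) →
      ∃ z r : A, x + 1 = B * z + r ∧ Lt r B := by
    rintro x ⟨z, r, h1, h2⟩
    obtain ⟨t, ht⟩ := h2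
    rcases hA.zero_or_succ t with rfl | ⟨t', rfl⟩
    · refine ⟨z + 1, 0, ?_, ?_⟩
      · calc x + 1 = B * z + (r + 0 + 1) := by rw [h1]; ring
          _ = B * z + B := by rw [ht]
          _ = B * (z + 1) + 0 := by ring
      · exact ⟨r, by rw [← ht]; ring⟩
    · refine ⟨z, r + 1, by rw [h1]; ring, t', by rw [← ht]; ring⟩
  obtain ⟨z, r, h1, h2⟩ := key base stp s
  obtain ⟨t, ht⟩ := h2
  exact ⟨z, r, h1, ⟨t + 1, by rw [← ht]; ring⟩⟩

end

end Pool.InterPA
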