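import Pool.Agent.InterPA.Code

/-!
# Product coding and collection in models of PA
-/

open FirstOrder FirstOrder.Language FirstOrder.Ring

namespace Pool.InterPA

open Pool.Interstr

section

variable {A : Type} [CommSemiring A] [Neg A] [CompatibleRing A]

lemma IsPA.not_lt_zero (hA : IsPA A) (a : A) : ¬ Lt a 0 := by
  rintro ⟨z, hz⟩
  exact hA.succ_ne_zero _ hz

lemma IsPA.not_lt_self (hA : IsPA A) (a : A) : ¬ Lt a a := fun h => hA.lt_asymm h (le_refl' a)

lemma IsPA.exists_code_formula (hA : IsPA A) {α : Type} (ψ : Language.ring.Formula (α ⊕ Fin 1))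
    (v : α → A) {I q : A} (hq0 : q ≠ 0) (hq : ∀ i, Le i I → Dvd' (i + 1) q) :
    ∃ s, ∀ j, Le j I → (Dvd' (md q j) s ↔ ψ.Realize (Sum.elim v (fun _ => j))) := by
  -- variables: `inl (inl (inl (inl a)))` parameters, `... (inr 0), (inr 1)` = `I, q`, then `t, s, j`
  have key := hA.ind (α := α ⊕ Fin 2)
    (((((leF (Term.var (Sum.inr 0)) (Term.var (Sum.inl (Sum.inl (Sum.inl (Sum.inr 0)))))).imp
      ((dvdF (1 + (Term.var (Sum.inr 0) + 1) * Term.var (Sum.inl (Sum.inl (Sum.inl (Sum.inr 1)))))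
          (Term.var (Sum.inl (Sum.inr 0)))).iff
        ((ltF (Term.var (Sum.inr 0)) (Term.var (Sum.inl (Sum.inl (Sum.inr 0))))) ⊓
          (ψ.relabel (Sum.elim (fun a => Sum.inl (Sum.inl (Sum.inl (Sum.inl a))))
            (fun i => Sum.inr i)) :
            Language.ring.Formula ((((α ⊕ Fin 2) ⊕ Fin 1) ⊕ Fin 1) ⊕ Fin 1))))).iAlls (Fin 1) :
              Language.ring.Formula (((α ⊕ Fin 2) ⊕ Fin 1) ⊕ Fin 1))).iExs (Fin 1))
    (Sum.elim v ![I, q])
  have hψ : ∀ t s j : A, (Sum.elim (Sum.elim (Sum.elim (Sum.elim v ![I, q]) fun _ : Fin 1 => t)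
      fun _ : Fin 1 => s) (fun _ : Fin 1 => j)) ∘
        (Sum.elim (fun a => Sum.inl (Sum.inl (Sum.inl (Sum.inl a)))) (fun i => Sum.inr i) :
          α ⊕ Fin 1 → (((α ⊕ Fin 2) ⊕ Fin 1) ⊕ Fin 1) ⊕ Fin 1) = Sum.elim v (fun _ => j) := by
    intro t s j
    funext i
    rcases i with i | i <;> simp
  simp only [Formula.realize_iExs, exists_fin_one, Formula.realize_inf,
    Formula.realize_iAlls, forall_fin_one, Formula.realize_imp, Formula.realize_iff,
    Formula.realize_relabel, hψ,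
    realize_le, realize_lt, realize_dvdF, Term.realize_var, Sum.elim_inl, Sum.elim_inr,
    realize_add, realize_one, realize_mul, Matrix.cons_val_zero, Matrix.cons_val_one] at key
  have base : ∃ s, ∀ j, Le j I → (Dvd' (md q j) s ↔
      Lt j 0 ∧ ψ.Realize (Sum.elim v (fun _ => j))) := by
    refine ⟨1, fun j _ => ?_⟩
    constructor
    · intro h
      exact absurd h (hA.not_md_dvd_one hq0)
    · rintro ⟨h, _⟩
      exact absurd h (hA.not_lt_zero j)
  have step : ∀ t, (∃ s, ∀ j, Le j I → (Dvd' (md q j) s ↔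
      Lt j t ∧ ψ.Realize (Sum.elim v (fun _ => j)))) →
      ∃ s, ∀ j, Le j I → (Dvd' (md q j) s ↔
      Lt j (t + 1) ∧ ψ.Realize (Sum.elim v (fun _ => j))) := by
    rintro t ⟨s, hs⟩
    by_cases ht : Le t I ∧ ψ.Realize (Sum.elim v (fun _ => t))
    · refine ⟨s * md q t, fun j hj => ?_⟩
      by_cases hjt : j = t
      · subst hjt
        refine ⟨fun _ => ⟨hA.lt_succ_iff.2 (le_refl' j), ht.2⟩, fun _ => ⟨s, by ring⟩⟩
      · constructor
        · intro h
          have h1 := (hs j hj).1 (hA.dvd_of_dvd_mul_md hq hj ht.1 hjt h)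
          exact ⟨hA.lt_succ_iff'.2 (Or.inl h1.1), h1.2⟩
        · rintro ⟨h1, h2⟩
          have h3 := (hA.lt_succ_iff'.1 h1).resolve_right hjt
          exact dvd_mul_right' ((hs j hj).2 ⟨h3, h2⟩) _
    · refine ⟨s, fun j hj => ?_⟩
      rw [hs j hj]
      constructor
      · rintro ⟨h1, h2⟩
        exact ⟨hA.lt_succ_iff'.2 (Or.inl h1), h2⟩
      · rintro ⟨h1, h2⟩
        rcases hA.lt_succ_iff'.1 h1 with h3 | h3
        · exact ⟨h3, h2⟩
        · subst h3
          exact absurd ⟨hj, h2⟩ ht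
  obtain ⟨s, hs⟩ := key base step (I + 1)
  refine ⟨s, fun j hj => ?_⟩
  have h1 := hs j hj
  have h2 : Lt j (I + 1) := hA.lt_succ_iff.2 hj
  exact ⟨fun h => (h1.1 h).2, fun h => h1.2 ⟨h2, h⟩⟩

/-- coding of a bounded relation, with the formula `codeF` -/
lemma IsPA.exists_code (hA : IsPA A) {π κ : Type} [Fintype κ]
    (φ : Language.ring.Formula (π ⊕ κ)) (u : π → A) {m q B : A} (hq0 : q ≠ 0)
    (hq : ∀ i, Le i (cod (fun _ : κ => m)) → Dvd' (i + 1) q) (hB0 : B ≠ 0)
    (hB : ∀ i, Le i (cod (fun _ : κ => m)) → Dvd' (md q i) B) :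
    ∃ s, (codeF φ).Realize (Sum.elim u ![m, q, B, s]) := by
  -- the formula `∃ w ≤ m, cod w = j ∧ φ(u, w)`
  let ψ : Language.ring.Formula ((π ⊕ Fin 1) ⊕ Fin 1) :=
    Formula.iExs κ
      ((Formula.iInf (fun i : κ => leF (Term.var (Sum.inr i))
          (Term.var (Sum.inl (Sum.inl (Sum.inr 0))))) :
        Language.ring.Formula (((π ⊕ Fin 1) ⊕ Fin 1) ⊕ κ)) ⊓
        (Term.equal (codT (fun i : κ => Term.var (Sum.inr i))) (Term.var (Sum.inl (Sum.inr 0))) ⊓
          φ.relabel (Sum.elim (fun a => Sum.inl (Sum.inl (Sum.inl a))) (fun i => Sum.inr i))))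
  have hψ : ∀ j, ψ.Realize (Sum.elim (Sum.elim u (fun _ => m)) (fun _ => j)) ↔
      ∃ w : κ → A, (∀ i, Le (w i) m) ∧ cod w = j ∧ φ.Realize (Sum.elim u w) := by
    intro j
    rw [Formula.realize_iExs]
    refine exists_congr fun w => ?_
    rw [Formula.realize_inf, Formula.realize_inf, Formula.realize_iInf, Formula.realize_equal,
      Formula.realize_relabel, realize_codT]
    refine and_congr (forall_congr' fun i => ?_) (and_congr ?_ (iff_of_eq (congrArg _ ?_)))
    · rw [realize_le]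
      simp
    · simp
    · funext i
      rcases i with i | i <;> simp
  obtain ⟨s0, hs0⟩ := hA.exists_code_formula ψ (Sum.elim u (fun _ => m)) hq0 hq
  obtain ⟨z, s, hs, hsB⟩ := hA.exists_div hB0 s0
  refine ⟨s, ?_⟩
  rw [realize_codeF]
  refine ⟨by simpa using hsB, fun w hw => ?_⟩
  have hw' : ∀ i, Le (w i) m := by simpa using hw
  have hwI : Le (cod w) (cod (fun _ : κ => m)) := cod_mono hw'
  have h1 : Dvd' (md q (cod w)) s ↔ Dvd' (md q (cod w)) s0 := by
    constructor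
    · intro h
      rw [hs]
      exact dvd_add' (dvd_mul_right' (hB _ hwI) z) h
    · intro h
      rw [hs] at h
      exact hA.dvd_of_dvd_add h (dvd_mul_right' (hB _ hwI) z)
  have h2 := hs0 (cod w) hwI
  have h3 : (∃ w' : κ → A, (∀ i, Le (w' i) m) ∧ cod w' = cod w ∧ φ.Realize (Sum.elim u w')) ↔
      φ.Realize (Sum.elim u w) := by
    constructor
    · rintro ⟨w', _, h, h'⟩
      rw [hA.cod_inj h] at h'
      exact h'
    · intro h
      exact ⟨w, hw', rfl, h⟩
  rw [← h3, ← hψ, ← h2, ← h1]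
  simp [md]

/-- collection for one variable -/
lemma IsPA.exists_coll_one (hA : IsPA A) {α : Type} (ψ : Language.ring.Formula ((α ⊕ Fin 1) ⊕ Fin 1))
    (v : α → A) (I : A) :
    ∃ B, ∀ j, Le j I → (∃ x, ψ.Realize (Sum.elim (Sum.elim v (fun _ => j)) (fun _ => x))) →
      ∃ x, Le x B ∧ ψ.Realize (Sum.elim (Sum.elim v (fun _ => j)) (fun _ => x)) := by
  have key := hA.ind (α := α)
    ((((leF (Term.var (Sum.inr 0)) (Term.var (Sum.inl (Sum.inl (Sum.inr 0))))).imp
      (((ψ.relabel (Sum.elim (Sum.elim (fun a => Sum.inl (Sum.inl (Sum.inl (Sum.inl a))))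
          (fun _ => Sum.inl (Sum.inr 0))) (fun i => Sum.inr i)) :
          Language.ring.Formula ((((α ⊕ Fin 1) ⊕ Fin 1) ⊕ Fin 1) ⊕ Fin 1)).iExs (Fin 1)).imp
        (((leF (Term.var (Sum.inr 0)) (Term.var (Sum.inl (Sum.inl (Sum.inr 0))))) ⊓
          (ψ.relabel (Sum.elim (Sum.elim (fun a => Sum.inl (Sum.inl (Sum.inl (Sum.inl a))))
            (fun _ => Sum.inl (Sum.inr 0))) (fun i => Sum.inr i)) :
          Language.ring.Formula ((((α ⊕ Fin 1) ⊕ Fin 1) ⊕ Fin 1) ⊕ Fin 1))).iExs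
            (Fin 1)))).iAlls (Fin 1) :
              Language.ring.Formula ((α ⊕ Fin 1) ⊕ Fin 1)).iExs (Fin 1)) v
  have hψ : ∀ t B j x : A, (Sum.elim (Sum.elim (Sum.elim (Sum.elim v fun _ : Fin 1 => t)
      fun _ : Fin 1 => B) (fun _ : Fin 1 => j)) (fun _ : Fin 1 => x)) ∘
        (Sum.elim (Sum.elim (fun a => Sum.inl (Sum.inl (Sum.inl (Sum.inl a))))
          (fun _ => Sum.inl (Sum.inr 0))) (fun i => Sum.inr i) :
          (α ⊕ Fin 1) ⊕ Fin 1 → (((α ⊕ Fin 1) ⊕ Fin 1) ⊕ Fin 1) ⊕ Fin 1) =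
          Sum.elim (Sum.elim v (fun _ => j)) (fun _ => x) := by
    intro t B j x
    funext i
    rcases i with (i | i) | i <;> simp
  simp only [Formula.realize_iExs, exists_fin_one, Formula.realize_inf,
    Formula.realize_iAlls, forall_fin_one, Formula.realize_imp,
    Formula.realize_relabel, hψ, realize_le, Term.realize_var, Sum.elim_inl, Sum.elim_inr] at key
  refine key ?_ ?_ I
  · by_cases h : ∃ x, ψ.Realize (Sum.elim (Sum.elim v (fun _ => 0)) (fun _ => x))
    · obtain ⟨x, hx⟩ := h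
      refine ⟨x, fun j hj _ => ?_⟩
      have : j = 0 := hA.le_antisymm hj ⟨j, by simp⟩
      subst this
      exact ⟨x, le_refl' x, hx⟩
    · refine ⟨0, fun j hj h' => ?_⟩
      have : j = 0 := hA.le_antisymm hj ⟨j, by simp⟩
      subst this
      exact absurd h' h
  · rintro t ⟨B, hB⟩
    by_cases h : ∃ x, ψ.Realize (Sum.elim (Sum.elim v (fun _ => t + 1)) (fun _ => x))
    · obtain ⟨x, hx⟩ := h
      refine ⟨B + x, fun j hj h' => ?_⟩
      rcases hA.lt_succ_iff'.1 (hA.lt_succ_iff.2 hj) with h1 | h1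
      · obtain ⟨y, hy, hy'⟩ := hB j (hA.lt_succ_iff.1 h1) h'
        exact ⟨y, le_trans' hy ⟨x, rfl⟩, hy'⟩
      · subst h1
        exact ⟨x, ⟨B, by ring⟩, hx⟩
    · refine ⟨B, fun j hj h' => ?_⟩
      rcases hA.lt_succ_iff'.1 (hA.lt_succ_iff.2 hj) with h1 | h1
      · exact hB j (hA.lt_succ_iff.1 h1) h'
      · subst h1
        exact absurd h' h

/-- collection for tuples, with the formula `collF` -/
lemma IsPA.exists_coll (hA : IsPA A) {α : Type} [Finite α]
    (φ : Language.ring.Formula (α ⊕ Fin 1)) (m : A) :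
    ∃ B, (collF φ).Realize (Sum.elim (fun _ => m) (fun _ => B)) := by
  have := Fintype.ofFinite α
  let ψ : Language.ring.Formula ((Fin 0 ⊕ Fin 1) ⊕ Fin 1) :=
    Formula.iExs α
      (Term.equal (codT (fun i : α => Term.var (Sum.inr i))) (Term.var (Sum.inl (Sum.inl
        (Sum.inr 0)))) ⊓
        (φ.relabel (Sum.elim (fun a => Sum.inr a) (fun i => Sum.inl (Sum.inr i))) :
          Language.ring.Formula (((Fin 0 ⊕ Fin 1) ⊕ Fin 1) ⊕ α)))
  have hψ : ∀ j x, ψ.Realize (Sum.elim (Sum.elim (![] : Fin 0 → A) (fun _ => j)) (fun _ => x)) ↔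
      ∃ w : α → A, cod w = j ∧ φ.Realize (Sum.elim w (fun _ => x)) := by
    intro j x
    rw [Formula.realize_iExs]
    refine exists_congr fun w => ?_
    rw [Formula.realize_inf, Formula.realize_equal, Formula.realize_relabel, realize_codT]
    refine and_congr ?_ (iff_of_eq (congrArg _ ?_))
    · simp
    · funext i
      rcases i with i | i <;> simp
  obtain ⟨B, hB⟩ := hA.exists_coll_one ψ ![] (cod (fun _ : α => m))
  refine ⟨B, ?_⟩
  rw [realize_collF]
  rintro w hw ⟨x, hx⟩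
  obtain ⟨y, hy, hy'⟩ := hB (cod w) (cod_mono hw) ⟨x, (hψ _ _).2 ⟨w, rfl, hx⟩⟩
  obtain ⟨w', hw', h⟩ := (hψ _ _).1 hy'
  rw [hA.cod_inj hw'] at h
  exact ⟨y, hy, h⟩

end

end Pool.InterPA
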