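import Pool.Agent.InterPA.Modular

/-!
# The amalgamation condition for ranked interstructure lattices
-/

open FirstOrder FirstOrder.Language FirstOrder.Ring

namespace Pool.InterPA

open Pool.Interstr

variable {M N : Type} [CommSemiring M] [Neg M] [CompatibleRing M] [CommSemiring N] [Neg N]
  [CompatibleRing N]

/-- **Necessity of the amalgamation condition.** -/
theorem condC_of_iso (hM : IsPA M) (f : M ↪ₑ[Language.ring] N) {L : Type} [Lattice L]
    {C : Set L}
    (e : L ≃o {K : Language.ring.ElementarySubstructure N // Set.range f ⊆ (K : Set N)})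
    (h : ∀ l : L, l ∈ C ↔
      ∀ x ∈ (e l).1, ∀ y : N, y ∉ (e l).1 → ∃ z : N, x + z + 1 = y)
    {a b c : L} (hb : b ∈ C) (hbc : ∀ d ∈ C, b ⊓ c ≤ d → b ≤ d) (hca : b ⊓ c ≤ a)
    (hab : a ≤ b) : (a ⊔ c) ⊓ b = a := by
  have hN := hM.of_embedding f
  have hle : ∀ {l l' : L}, l ≤ l' → (e l).1 ≤ (e l').1 := fun hl => e.monotone hl
  -- members of the meet
  have hmeet : ∀ (l l' : L) (x : N), x ∈ (e l).1 → x ∈ (e l').1 → x ∈ (e (l ⊓ l')).1 := by
    intro l l' x hx hx'
    let K := (hN.inter_meets (e l).1 (e l').1).toElementarySubstructure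
    have hK : ∀ z, z ∈ K ↔ z ∈ (((e l).1 : Set N) ∩ ((e l').1 : Set N)) :=
      mem_toElem (hN.inter_meets (e l).1 (e l').1)
    have hfK : Set.range f ⊆ (K : Set N) := by
      intro z hz
      rw [SetLike.mem_coe, hK]
      exact ⟨(e l).2 hz, (e l').2 hz⟩
    have h1 : e.symm ⟨K, hfK⟩ ≤ l ⊓ l' := by
      apply le_inf
      · rw [← e.le_iff_le, e.apply_symm_apply]
        intro z hz
        change z ∈ K at hz
        rw [hK] at hz
        exact hz.1
      · rw [← e.le_iff_le, e.apply_symm_apply]
        intro z hz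
        change z ∈ K at hz
        rw [hK] at hz
        exact hz.2
    have h2 := e.monotone h1
    rw [e.apply_symm_apply] at h2
    exact h2 ((hK x).2 ⟨hx, hx'⟩)
  apply le_antisymm
  · rw [← e.le_iff_le]
    intro y hy
    have hyb : y ∈ (e b).1 := hle inf_le_right hy
    have hyac : y ∈ (e (a ⊔ c)).1 := hle inf_le_left hy
    refine hN.modular_key (e a).1 (e b).1 (e c).1 (hle hab) ?_ ?_ ((h b).mp hb) hyb ?_
    · intro x hxb hxc
      exact hle hca (hmeet b c x hxb hxc)
    · -- `b ⊓ c` is cofinal in `b`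
      intro y hy
      let w := (e (b ⊓ c)).1
      let K := (hN.clos_meets w).toElementarySubstructure
      have hK : ∀ z, z ∈ K ↔ z ∈ clos w := mem_toElem (hN.clos_meets w)
      have hwK : ∀ z ∈ w, z ∈ K := fun z hz => (hK z).2 ⟨z, hz, le_refl' z⟩
      have hfK : Set.range f ⊆ (K : Set N) := fun z hz => hwK z ((e (b ⊓ c)).2 hz)
      have hKC : e.symm ⟨K, hfK⟩ ∈ C := by
        rw [h, e.apply_symm_apply]
        intro x hx y hy
        change x ∈ K at hx
        change y ∉ K at hy
        rw [hK] at hx hy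
        rcases hN.lt_or_le x y with h1 | h1
        · exact h1
        · exfalso
          obtain ⟨m, hmw, hm⟩ := hx
          exact hy ⟨m, hmw, le_trans' h1 hm⟩
      have h1 : b ⊓ c ≤ e.symm ⟨K, hfK⟩ := by
        rw [← e.le_iff_le, e.apply_symm_apply]
        exact hwK
      have h2 := e.monotone (hbc _ hKC h1)
      rw [e.apply_symm_apply] at h2
      have h3 : y ∈ K := h2 hy
      rw [hK] at h3
      obtain ⟨m, hmw, hm⟩ := h3
      exact ⟨m, hle inf_le_left hmw, hle inf_le_right hmw, hm⟩
    · intro K haK hcK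
      have hfK : Set.range f ⊆ (K : Set N) := fun z hz => haK ((e a).2 hz)
      have h1 : a ⊔ c ≤ e.symm ⟨K, hfK⟩ := by
        apply sup_le
        · rw [← e.le_iff_le, e.apply_symm_apply]
          exact haK
        · rw [← e.le_iff_le, e.apply_symm_apply]
          exact hcK
      have h2 := e.monotone h1
      rw [e.apply_symm_apply] at h2
      exact h2 hyac
  · exact le_inf le_sup_left hab

end Pool.InterPA
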