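import Pool.Agent.Interstr.N5

/-!
# The lattice `K ∪ {c, 1}`
-/

namespace Pool.InterPA

/-- `K` with a new complement `cc` of every nonzero element of `K` and a new top `tt`. -/
inductive Adj (K : Type) : Type
  | emb : K → Adj K
  | cc : Adj K
  | tt : Adj K

namespace Adj

variable {K : Type} [Lattice K] [BoundedOrder K]

/-- The order: `K` keeps its order, `⊥ ≤ cc`, and `tt` is the greatest element. -/
protected def le : Adj K → Adj K → Prop
  | _, tt => True
  | emb x, emb y => x ≤ y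
  | emb x, cc => x = ⊥
  | cc, cc => True
  | _, _ => False

instance : LE (Adj K) := ⟨Adj.le⟩

@[simp] lemma le_tt (x : Adj K) : x ≤ tt := by cases x <;> exact trivial
@[simp] lemma emb_le_emb {x y : K} : emb x ≤ emb y ↔ x ≤ y := Iff.rfl
@[simp] lemma emb_le_cc {x : K} : emb x ≤ cc ↔ x = ⊥ := Iff.rfl
@[simp] lemma cc_le_cc : (cc : Adj K) ≤ cc := trivial
@[simp] lemma not_cc_le_emb {x : K} : ¬ cc ≤ emb x := id
@[simp] lemma not_tt_le_emb {x : K} : ¬ tt ≤ emb x := id
@[simp] lemma not_tt_le_cc : ¬ (tt : Adj K) ≤ cc := id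

open Classical in
/-- joins -/
protected noncomputable def sup : Adj K → Adj K → Adj K
  | emb x, emb y => emb (x ⊔ y)
  | emb x, cc => if x = ⊥ then cc else tt
  | cc, emb x => if x = ⊥ then cc else tt
  | cc, cc => cc
  | _, _ => tt

/-- meets -/
protected def inf : Adj K → Adj K → Adj K
  | emb x, emb y => emb (x ⊓ y)
  | emb _, cc => emb ⊥
  | cc, emb _ => emb ⊥
  | cc, cc => cc
  | tt, x => x
  | x, tt => x

lemma le_refl0 (x : Adj K) : x ≤ x := by cases x <;> simp

lemma le_trans0 (x y z : Adj K) (h1 : x ≤ y) (h2 : y ≤ z) : x ≤ z := by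
  cases x <;> cases y <;> cases z <;> simp_all
  exact h1.trans h2

lemma le_antisymm0 (x y : Adj K) (h1 : x ≤ y) (h2 : y ≤ x) : x = y := by
  cases x <;> cases y <;> simp_all
  exact _root_.le_antisymm h1 h2

lemma le_sup_left0 (x y : Adj K) : x ≤ Adj.sup x y := by
  cases x <;> cases y <;> simp [Adj.sup] <;> split_ifs <;> simp_all

lemma le_sup_right0 (x y : Adj K) : y ≤ Adj.sup x y := by
  cases x <;> cases y <;> simp [Adj.sup] <;> split_ifs <;> simp_all

lemma sup_le0 (x y z : Adj K) (h1 : x ≤ z) (h2 : y ≤ z) : Adj.sup x y ≤ z := by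
  cases x <;> cases y <;> cases z <;> simp_all [Adj.sup]

lemma inf_le_left0 (x y : Adj K) : Adj.inf x y ≤ x := by
  cases x <;> cases y <;> simp [Adj.inf]

lemma inf_le_right0 (x y : Adj K) : Adj.inf x y ≤ y := by
  cases x <;> cases y <;> simp [Adj.inf]

lemma le_inf0 (x y z : Adj K) (h1 : x ≤ y) (h2 : x ≤ z) : x ≤ Adj.inf y z := by
  cases x <;> cases y <;> cases z <;> simp_all [Adj.inf]

noncomputable instance : Lattice (Adj K) where
  le := (· ≤ ·)
  le_refl := le_refl0
  le_trans := le_trans0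
  le_antisymm := le_antisymm0
  sup := Adj.sup
  inf := Adj.inf
  le_sup_left := le_sup_left0
  le_sup_right := le_sup_right0
  sup_le := sup_le0
  inf_le_left := inf_le_left0
  inf_le_right := inf_le_right0
  le_inf := le_inf0

lemma bot_le0 (x : Adj K) : emb ⊥ ≤ x := by cases x <;> simp

instance : BoundedOrder (Adj K) where
  top := tt
  bot := emb ⊥
  le_top := le_tt
  bot_le := bot_le0

lemma top_def : (⊤ : Adj K) = tt := rfl
lemma bot_def : (⊥ : Adj K) = emb ⊥ := rfl

@[simp] lemma emb_inf_emb (x y : K) : emb x ⊓ emb y = emb (x ⊓ y) := rfl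
@[simp] lemma emb_sup_emb (x y : K) : emb x ⊔ emb y = emb (x ⊔ y) := rfl
@[simp] lemma emb_inf_cc (x : K) : emb x ⊓ cc = emb ⊥ := rfl
@[simp] lemma cc_inf_emb (x : K) : cc ⊓ emb x = emb ⊥ := rfl

open Classical in
lemma emb_sup_cc (x : K) : emb x ⊔ cc = if x = ⊥ then cc else tt := rfl

lemma emb_sup_cc_of_ne {x : K} (hx : x ≠ ⊥) : emb x ⊔ cc = tt := by
  rw [emb_sup_cc, if_neg hx]

instance [Finite K] : Finite (Adj K) := by
  have : Function.Surjective (fun x : Option (Option K) =>
      match x with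
      | none => (tt : Adj K)
      | some none => cc
      | some (some k) => emb k) := by
    intro x
    cases x with
    | emb k => exact ⟨some (some k), rfl⟩
    | cc => exact ⟨some none, rfl⟩
    | tt => exact ⟨none, rfl⟩
  exact Finite.of_surjective _ this

/-- The chain `{1_K, 1}`. -/
def ch (K : Type) [Lattice K] [BoundedOrder K] : Set (Adj K) := {emb ⊤, tt}

lemma mem_ch {x : Adj K} : x ∈ ch K ↔ x = emb ⊤ ∨ x = tt := Iff.rfl

lemma chain : IsChain (· ≤ ·) (ch K) := by
  rintro x (rfl | rfl) y (rfl | rfl) h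
  · exact absurd rfl h
  · left; simp
  · right; simp
  · exact absurd rfl h

lemma top_mem : (⊤ : Adj K) ∈ ch K := Or.inr rfl

lemma condA : ∀ x y d : Adj K,
    (d ∈ ch K ∧ x ≤ d ∧ ∀ c' ∈ ch K, x ≤ c' → d ≤ c') →
    (d ∈ ch K ∧ y ≤ d ∧ ∀ c' ∈ ch K, y ≤ c' → d ≤ c') →
    (d ∈ ch K ∧ x ⊓ y ≤ d ∧ ∀ c' ∈ ch K, x ⊓ y ≤ c' → d ≤ c') := by
  rintro x y d ⟨hd, hx, hx'⟩ ⟨-, hy, hy'⟩
  refine ⟨hd, inf_le_left.trans hx, ?_⟩
  rcases hd with rfl | rfl
  · rintro c' (rfl | rfl) _
    · exact le_rfl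
    · simp
  · have key : ∀ z : Adj K, (∀ c' ∈ ch K, z ≤ c' → tt ≤ c') → z = cc ∨ z = tt := by
      intro z hz
      cases z with
      | emb k => exact absurd (hz (emb ⊤) (Or.inl rfl) (by simp)) (by simp)
      | cc => exact Or.inl rfl
      | tt => exact Or.inr rfl
    rintro c' (rfl | rfl) h
    · exfalso
      rcases key x hx' with rfl | rfl <;> rcases key y hy' with rfl | rfl
      · rw [inf_idem] at h; exact not_cc_le_emb h
      · exact not_cc_le_emb (K := K) h
      · exact not_cc_le_emb (K := K) h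
      · rw [inf_idem] at h; exact not_tt_le_emb h
    · exact le_rfl

lemma condB [Nontrivial K] : ∀ w x y z : Adj K, x ⊔ w = z → y ⊔ w = z → x ⊓ w = y ⊓ w →
    (∃ d : Adj K, (d ∈ ch K ∧ w ≤ d ∧ ∀ c' ∈ ch K, w ≤ c' → d ≤ c') ∧ w = d ⊓ z) → x = y := by
  rintro w x y z hx hy hxy ⟨d, ⟨hd, -, -⟩, hw⟩
  have key : w = z → x = y := by
    rintro rfl
    have h1 : x ≤ w := by rw [← hx]; exact le_sup_left
    have h2 : y ≤ w := by rw [← hy]; exact le_sup_left
    rwa [inf_eq_left.2 h1, inf_eq_left.2 h2] at hxy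
  rcases hd with rfl | rfl
  · cases z with
    | emb k =>
      apply key
      rw [hw]
      simp
    | cc =>
      have hw' : w = ⊥ := hw
      rw [hw', sup_bot_eq] at hx hy
      rw [hx, hy]
    | tt =>
      have hw' : w = emb ⊤ := hw
      subst hw'
      have h1 : ∀ x : Adj K, x ⊔ emb ⊤ = tt → x = cc ∨ x = tt := by
        intro x h
        cases x with
        | emb k => simp at h
        | cc => exact Or.inl rfl
        | tt => exact Or.inr rfl
      have hne : (emb (⊥ : K)) ≠ emb ⊤ := by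
        intro h
        injection h with h
        exact bot_ne_top h
      rcases h1 x hx with rfl | rfl <;> rcases h1 y hy with rfl | rfl
      · rfl
      · exact absurd hxy hne
      · exact absurd hxy.symm hne
      · rfl
  · apply key
    rw [hw]
    cases z <;> rfl

/-- the amalgamation condition fails -/
lemma not_condC {k : K} (h0 : k ≠ ⊥) (h1 : k ≠ ⊤) :
    ∃ a b c : Adj K, b ∈ ch K ∧ (∀ d ∈ ch K, b ⊓ c ≤ d → b ≤ d) ∧ b ⊓ c ≤ a ∧ a ≤ b ∧
      (a ⊔ c) ⊓ b ≠ a := by
  refine ⟨emb k, emb ⊤, cc, Or.inl rfl, ?_, by simp, by simp, ?_⟩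
  · rintro d (rfl | rfl) _
    · exact le_rfl
    · simp
  · rw [emb_sup_cc_of_ne h0]
    intro h
    have h2 : (emb ⊤ : Adj K) = emb k := h
    injection h2 with h3
    exact h1 h3.symm

/-- If `K` is distributive with at least four elements then no interval of `K ∪ {c, 1}` is
isomorphic to the pentagon. -/
lemma no_pentagon_interval {K : Type} [DistribLattice K] [BoundedOrder K]
    (hK : ∀ a b c : K, ∃ d, d ≠ a ∧ d ≠ b ∧ d ≠ c) (u v : Adj K) :
    IsEmpty (Pool.Interstr.N5 ≃o Set.Icc u v) := by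
  refine ⟨fun φ => ?_⟩
  -- the images
  have hinf : ∀ x y : Pool.Interstr.N5, ((φ (x ⊓ y)).1 : Adj K) = (φ x).1 ⊓ (φ y).1 := by
    intro x y
    apply le_antisymm
    · exact le_inf (φ.monotone inf_le_left) (φ.monotone inf_le_right)
    · have h1 : (φ x).1 ⊓ (φ y).1 ∈ Set.Icc u v :=
        ⟨le_inf (φ x).2.1 (φ y).2.1, inf_le_left.trans (φ x).2.2⟩
      have h2 : φ.symm ⟨_, h1⟩ ≤ x ⊓ y := by
        apply le_inf
        · rw [← φ.le_iff_le, φ.apply_symm_apply]
          exact inf_le_left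
        · rw [← φ.le_iff_le, φ.apply_symm_apply]
          exact inf_le_right
      have h3 := φ.monotone h2
      rw [φ.apply_symm_apply] at h3
      exact h3
  have hsup : ∀ x y : Pool.Interstr.N5, ((φ (x ⊔ y)).1 : Adj K) = (φ x).1 ⊔ (φ y).1 := by
    intro x y
    apply le_antisymm
    · have h1 : (φ x).1 ⊔ (φ y).1 ∈ Set.Icc u v :=
        ⟨(φ x).2.1.trans le_sup_left, sup_le (φ x).2.2 (φ y).2.2⟩
      have h2 : x ⊔ y ≤ φ.symm ⟨_, h1⟩ := by
        apply sup_le
        · rw [← φ.le_iff_le, φ.apply_symm_apply]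
          exact le_sup_left
        · rw [← φ.le_iff_le, φ.apply_symm_apply]
          exact le_sup_right
      have h3 := φ.monotone h2
      rw [φ.apply_symm_apply] at h3
      exact h3
    · exact sup_le (φ.monotone le_sup_left) (φ.monotone le_sup_right)
  have hlt : ∀ {x y : Pool.Interstr.N5}, x < y → (φ x).1 < (φ y).1 := fun h => φ.strictMono h
  have hAB := hlt (lt_of_le_of_ne (show Pool.Interstr.N5.a ≤ Pool.Interstr.N5.b by decide)
    (by decide))
  have hBT := hlt (lt_of_le_of_ne (show Pool.Interstr.N5.b ≤ Pool.Interstr.N5.top by decide)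
    (by decide))
  have hCT := hlt (lt_of_le_of_ne (show Pool.Interstr.N5.c ≤ Pool.Interstr.N5.top by decide)
    (by decide))
  have hbA := hlt (lt_of_le_of_ne (show Pool.Interstr.N5.bot ≤ Pool.Interstr.N5.a by decide)
    (by decide))
  have i1 := hinf .a .c
  have i2 := hinf .b .c
  have s1 := hsup .a .c
  have s2 := hsup .b .c
  rw [show Pool.Interstr.N5.a ⊓ Pool.Interstr.N5.c = .bot from rfl] at i1
  rw [show Pool.Interstr.N5.b ⊓ Pool.Interstr.N5.c = .bot from rfl] at i2
  rw [show Pool.Interstr.N5.a ⊔ Pool.Interstr.N5.c = .top from rfl] at s1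
  rw [show Pool.Interstr.N5.b ⊔ Pool.Interstr.N5.c = .top from rfl] at s2
  have hbot : (φ .bot).1 = u := le_antisymm (by
    have h1 : u ∈ Set.Icc u v := ⟨le_rfl, (φ .bot).2.1.trans (φ .bot).2.2⟩
    have h2 := φ.monotone (bot_le : (⊥ : Pool.Interstr.N5) ≤ φ.symm ⟨u, h1⟩)
    rw [φ.apply_symm_apply] at h2
    exact h2) (φ .bot).2.1
  have htop : (φ .top).1 = v := le_antisymm (φ .top).2.2 (by
    have h1 : v ∈ Set.Icc u v := ⟨(φ .bot).2.1.trans (φ .bot).2.2, le_rfl⟩
    have h2 := φ.monotone (le_top : φ.symm ⟨v, h1⟩ ≤ (⊤ : Pool.Interstr.N5))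
    rw [φ.apply_symm_apply] at h2
    exact h2)
  -- the shapes
  have hA : ∃ p, (φ .a).1 = emb p := by
    cases hx : (φ .a).1 with
    | emb p => exact ⟨p, rfl⟩
    | cc =>
      exfalso
      rw [hx] at hAB
      cases hy : (φ .b).1 with
      | emb r => rw [hy] at hAB; exact not_cc_le_emb hAB.le
      | cc => rw [hy] at hAB; exact lt_irrefl _ hAB
      | tt => rw [hy] at hBT; exact absurd hBT (not_lt_of_ge (le_tt _))
    | tt => rw [hx] at hAB; exact absurd hAB (not_lt_of_ge (le_tt _))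
  obtain ⟨p, hp⟩ := hA
  have hB : ∃ r, (φ .b).1 = emb r := by
    cases hx : (φ .b).1 with
    | emb r => exact ⟨r, rfl⟩
    | cc =>
      exfalso
      rw [hx, hp] at hAB
      rw [hp] at hbA
      have h1 : p = ⊥ := emb_le_cc.1 hAB.le
      rw [h1] at hbA
      exact absurd hbA (not_lt_of_ge (bot_le (α := Adj K)))
    | tt => rw [hx] at hBT; exact absurd hBT (not_lt_of_ge (le_tt _))
  obtain ⟨r, hr⟩ := hB
  have hpr : p < r := by
    rw [hp, hr] at hAB
    refine lt_of_le_of_ne (emb_le_emb.1 hAB.le) (fun h => ?_)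
    rw [h] at hAB
    exact lt_irrefl _ hAB
  cases hx : (φ .c).1 with
  | emb t =>
    rw [hp, hx, emb_inf_emb] at i1
    rw [hr, hx, emb_inf_emb] at i2
    rw [hp, hx, emb_sup_emb] at s1
    rw [hr, hx, emb_sup_emb] at s2
    have e1 : p ⊓ t = r ⊓ t := by
      have := i1.symm.trans i2
      injection this
    have e2 : p ⊔ t = r ⊔ t := by
      have := s1.symm.trans s2
      injection this
    exact hpr.ne (eq_of_inf_eq_sup_eq e1 e2)
  | cc =>
    rw [hp, hx, emb_inf_cc] at i1
    have hp0 : p ≠ ⊥ := by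
      rintro rfl
      rw [hp, i1] at hbA
      exact lt_irrefl _ hbA
    rw [hp, hx, emb_sup_cc_of_ne hp0] at s1
    obtain ⟨d, hd1, hd2, hd3⟩ := hK ⊥ p r
    have hu : u = emb ⊥ := hbot.symm.trans i1
    have hv : v = tt := htop.symm.trans s1
    have hdm : emb d ∈ Set.Icc u v := ⟨by rw [hu]; simp, by rw [hv]; simp⟩
    have hs : ∀ y : Pool.Interstr.N5, (φ y).1 ≠ emb d := by
      intro y hy
      cases y with
      | bot => rw [i1] at hy; injection hy with h; exact hd1 h.symm
      | a => rw [hp] at hy; injection hy with h; exact hd2 h.symm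
      | b => rw [hr] at hy; injection hy with h; exact hd3 h.symm
      | c => rw [hx] at hy; cases hy
      | top => rw [s1] at hy; cases hy
    apply hs (φ.symm ⟨emb d, hdm⟩)
    rw [φ.apply_symm_apply]
  | tt => rw [hx] at hCT; exact absurd hCT (not_lt_of_ge (le_tt _))

end Adj

end Pool.InterPA
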