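import Pool.Agent.InterPA.Code2
import Pool.Agent.Interstr.Final

/-!
# The modular law at cofinal meets of elementary substructures
-/

open FirstOrder FirstOrder.Language FirstOrder.Ring

namespace Pool.InterPA

open Pool.Interstr

section

variable {N : Type} [CommSemiring N] [Neg N] [CompatibleRing N]

lemma IsPA.dclo_meets (hN : IsPA N) (A : Set N) : Language.ring.MeetsDefinable (dclo A) := by
  intro D hD h
  obtain ⟨A0, φ, hA0, hφ⟩ := exists_formula_of_definable A D (definable_trans A D h)
  obtain ⟨x0, hx0⟩ := hD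
  obtain ⟨x, hx, hx'⟩ := hN.exists_least φ (fun a => (a : N)) ⟨x0, (hφ x0).mpr hx0⟩
  refine ⟨x, (hφ x).mp hx, ?_⟩
  rw [dclo, Set.mem_ofPred_eq, definable_singleton_iff]
  refine ⟨A0, leastF φ, hA0, fun z => ?_⟩
  rw [realize_leastF]
  constructor
  · rintro ⟨h1, h2⟩
    exact hN.le_antisymm (h2 x hx) (hx' z h1)
  · rintro rfl
    exact ⟨hx, hx'⟩

lemma IsPA.inter_meets (hN : IsPA N) (K L : Language.ring.ElementarySubstructure N) :
    Language.ring.MeetsDefinable ((K : Set N) ∩ (L : Set N)) := by
  have h := hN.dclo_meets ((K : Set N) ∩ (L : Set N))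
  have h1 : dclo ((K : Set N) ∩ (L : Set N)) = (K : Set N) ∩ (L : Set N) := by
    apply Set.Subset.antisymm
    · intro z hz
      rw [dclo, Set.mem_ofPred_eq] at hz
      constructor
      · obtain ⟨x, hx, hxK⟩ := K.meetsDefinable {z} (Set.singleton_nonempty z)
          (Set.Definable.mono hz Set.inter_subset_left)
        rw [Set.mem_singleton_iff] at hx
        rw [← hx]
        exact hxK
      · obtain ⟨x, hx, hxK⟩ := L.meetsDefinable {z} (Set.singleton_nonempty z)
          (Set.Definable.mono hz Set.inter_subset_right)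
        rw [Set.mem_singleton_iff] at hx
        rw [← hx]
        exact hxK
    · exact subset_dclo _
  rwa [h1] at h

lemma zero_mem' (K : Language.ring.ElementarySubstructure N) : (0 : N) ∈ K := by
  have := K.toSubstructure.constants_mem (zeroFunc : Language.ring.Constants)
  have h2 : ((zeroFunc : Language.ring.Constants) : N) = 0 :=
    CompatibleRing.funMap_zero _
  rw [h2] at this
  exact this

lemma add_mem' (K : Language.ring.ElementarySubstructure N) {x y : N} (hx : x ∈ K) (hy : y ∈ K) :
    x + y ∈ K := by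
  have h := K.toSubstructure.fun_mem addFunc ![x, y] (by
    intro i
    fin_cases i
    · exact hx
    · exact hy)
  rw [CompatibleRing.funMap_add] at h
  exact h

/-- Finitely many elements bounded by elements of `w` have a common bound in `w`. -/
lemma common_bound' (w : Language.ring.ElementarySubstructure N) {κ : Type} [Finite κ] (v : κ → N)
    (h : ∀ i, ∃ m ∈ w, Le (v i) m) : ∃ m ∈ w, ∀ i, Le (v i) m := by
  classical
  have := Fintype.ofFinite κ
  choose g hgw hg using h
  have hs : ∀ s : Finset κ, ∑ i ∈ s, g i ∈ w := by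
    intro s
    induction s using Finset.induction_on with
    | empty => simpa using zero_mem' w
    | insert a s ha ih =>
      rw [Finset.sum_insert ha]
      exact add_mem' w (hgw a) ih
  refine ⟨∑ i, g i, hs _, fun i => le_trans' (hg i) ?_⟩
  rw [← Finset.add_sum_erase _ _ (Finset.mem_univ i)]
  exact le_add_right' _ _

/-- The cofinal closure of `w` in `N`. -/
def clos (w : Language.ring.ElementarySubstructure N) : Set N := {z | ∃ m ∈ w, Le z m}

/-- existential statements with parameters in `w` have witnesses in `w` -/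
lemma exists_in (w : Language.ring.ElementarySubstructure N) {γ : Type}
    (φ : Language.ring.Formula (γ ⊕ Fin 1)) (u : γ → N) (hu : ∀ i, u i ∈ w)
    (h : ∃ x, φ.Realize (Sum.elim u (fun _ => x))) :
    ∃ x ∈ w, φ.Realize (Sum.elim u (fun _ => x)) := by
  have hd := definable_of_formula (α := Fin 1) (w : Set N) φ
    (Sum.elim (fun a => Sum.inl ⟨u a, hu a⟩) (fun i => Sum.inr i))
  have he : {v : Fin 1 → N | φ.Realize (fun i => Sum.elim (fun a : (w : Set N) => (a : N)) v
      ((Sum.elim (fun a => Sum.inl ⟨u a, hu a⟩) (fun i => Sum.inr i) :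
        γ ⊕ Fin 1 → (w : Set N) ⊕ Fin 1) i))} =
        {v | v 0 ∈ {x | φ.Realize (Sum.elim u (fun _ => x))}} := by
    ext v
    rw [Set.mem_ofPred_eq, Set.mem_ofPred_eq, Set.mem_ofPred_eq]
    refine iff_of_eq (congrArg _ ?_)
    funext i
    rcases i with i | i
    · simp
    · simp [Subsingleton.elim i 0]
  rw [he] at hd
  obtain ⟨x, hx, hxw⟩ := w.meetsDefinable _ h hd
  exact ⟨x, hxw, hx⟩

lemma IsPA.clos_meets (hN : IsPA N) (w : Language.ring.ElementarySubstructure N) :
    Language.ring.MeetsDefinable (clos w) := by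
  intro D hD h
  obtain ⟨A0, φ, hA0, hφ⟩ := exists_formula_of_definable _ D h
  obtain ⟨x0, hx0⟩ := hD
  obtain ⟨m, hmw, hm⟩ := common_bound' w (fun a : A0 => (a : N)) (fun a => hA0 a.2)
  obtain ⟨B, hBw, hB⟩ := exists_in w (collF φ) (fun _ => m) (fun _ => hmw) (hN.exists_coll φ m)
  rw [realize_collF] at hB
  obtain ⟨x, hx1, hx2⟩ := hB (fun a => (a : N)) hm ⟨x0, (hφ x0).mpr hx0⟩
  exact ⟨x, (hφ x).mp hx2, B, hBw, hx1⟩

/-- the conditions on `q` as a formula in `I` and `q` -/
lemma exists_q_in (hN : IsPA N) (w : Language.ring.ElementarySubstructure N) {κ : Type}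
    [Fintype κ] {m : N} (hm : m ∈ w) :
    ∃ q ∈ w, q ≠ 0 ∧ ∀ i, Le i (cod (fun _ : κ => m)) → Dvd' (i + 1) q := by
  have key := exists_in w (γ := Fin 1)
    ((Term.equal (Term.var (Sum.inr 0)) 0).not ⊓
      ((((leF (Term.var (Sum.inr 0)) (codT (fun _ : κ => Term.var (Sum.inl (Sum.inl 0))))).imp
        (dvdF (Term.var (Sum.inr 0) + 1) (Term.var (Sum.inl (Sum.inr 0)))))) :
          Language.ring.Formula ((Fin 1 ⊕ Fin 1) ⊕ Fin 1)).iAlls (Fin 1)) (fun _ => m)
      (fun _ => hm)
  simp only [Formula.realize_inf, Formula.realize_not,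
    Formula.realize_equal, Formula.realize_iAlls, forall_fin_one, Formula.realize_imp,
    realize_le, realize_dvdF, Term.realize_var, Sum.elim_inl, Sum.elim_inr, realize_zero,
    realize_add, realize_one, realize_codT] at key
  exact key (hN.exists_q _)

lemma exists_B_in (hN : IsPA N) (w : Language.ring.ElementarySubstructure N) {κ : Type}
    [Fintype κ] {m q : N} (hm : m ∈ w) (hq : q ∈ w) :
    ∃ B ∈ w, B ≠ 0 ∧ ∀ i, Le i (cod (fun _ : κ => m)) → Dvd' (md q i) B := by
  have key := exists_in w (γ := Fin 2)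
    ((Term.equal (Term.var (Sum.inr 0)) 0).not ⊓
      ((((leF (Term.var (Sum.inr 0)) (codT (fun _ : κ => Term.var (Sum.inl (Sum.inl 0))))).imp
        (dvdF (1 + (Term.var (Sum.inr 0) + 1) * Term.var (Sum.inl (Sum.inl 1)))
          (Term.var (Sum.inl (Sum.inr 0)))))) :
          Language.ring.Formula ((Fin 2 ⊕ Fin 1) ⊕ Fin 1)).iAlls (Fin 1)) ![m, q]
      (by
        intro i
        fin_cases i
        · exact hm
        · exact hq)
  simp only [Formula.realize_inf, Formula.realize_not,
    Formula.realize_equal, Formula.realize_iAlls, forall_fin_one, Formula.realize_imp,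
    realize_le, realize_dvdF, Term.realize_var, Sum.elim_inl, Sum.elim_inr, realize_zero,
    realize_add, realize_one, realize_mul, realize_codT, Matrix.cons_val_zero,
    Matrix.cons_val_one] at key
  exact key (hN.exists_B _ q)

/-- **Main argument.** Let `a ≤ b` and `c` be elementary substructures of a model `N` of PA with
`b ∩ c ≤ a`. Suppose that `b ∩ c` is cofinal in `b` and that `N` is an end extension of `b`.
Then every element of `b` which lies in the join of `a` and `c` lies in `a`. -/
theorem IsPA.modular_key (hN : IsPA N) (a b c : Language.ring.ElementarySubstructure N)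
    (hab : a ≤ b) (hbca : ∀ x, x ∈ b → x ∈ c → x ∈ a)
    (hcof : ∀ y ∈ b, ∃ m, m ∈ b ∧ m ∈ c ∧ Le y m)
    (hend : ∀ x ∈ b, ∀ y : N, y ∉ b → Lt x y) {y : N} (hy : y ∈ b)
    (hyac : ∀ K : Language.ring.ElementarySubstructure N, a ≤ K → c ≤ K → y ∈ K) :
    y ∈ a := by
  classical
  -- `y` is definable over `c ∪ a`
  let P : Set N := (c : Set N) ∪ (a : Set N)
  let K := (hN.dclo_meets P).toElementarySubstructure
  have hKmem : ∀ z, z ∈ K ↔ z ∈ dclo P := mem_toElem (hN.dclo_meets P)
  have hyK : y ∈ dclo P := by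
    rw [← hKmem]
    apply hyac
    · intro z hz
      rw [hKmem]
      exact subset_dclo P (Or.inr hz)
    · intro z hz
      rw [hKmem]
      exact subset_dclo P (Or.inl hz)
  -- the meet of `b` and `c`
  let w := (hN.inter_meets b c).toElementarySubstructure
  have hw : ∀ z, z ∈ w ↔ z ∈ ((b : Set N) ∩ (c : Set N)) := mem_toElem (hN.inter_meets b c)
  rw [dclo, Set.mem_ofPred_eq, definable_singleton_iff] at hyK
  obtain ⟨A0, φ0, hA0, hφ0⟩ := hyK
  let g : A0 ⊕ Fin 1 → A0 ⊕ Option A0 :=
    Sum.elim (fun i => if (i : N) ∈ c then Sum.inl i else Sum.inr (some i))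
      (fun _ => Sum.inr none)
  let φ : Language.ring.Formula (A0 ⊕ Option A0) := φ0.relabel g
  let u : A0 → N := fun i => if (i : N) ∈ c then i else 0
  let w0 : N → Option A0 → N := fun z o => o.elim z (fun i => if (i : N) ∈ c then 0 else i)
  have hφ : ∀ z, φ.Realize (Sum.elim u (w0 z)) ↔ z = y := by
    intro z
    rw [← hφ0 z, Formula.realize_relabel]
    refine iff_of_eq (congrArg _ ?_)
    funext i
    rcases i with i | i
    · by_cases hi : (i : N) ∈ c
      · simp [g, u, hi]
      · simp [g, w0, hi]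
    · simp [g, w0]
  have hw0a : ∀ z i, w0 z (some i) ∈ a := by
    intro z i
    simp only [w0, Option.elim_some]
    split_ifs with hi
    · exact zero_mem' a
    · rcases hA0 i.2 with h | h
      · exact absurd h hi
      · exact h
  obtain ⟨m, hmw, hm⟩ := common_bound' w (w0 y) (by
    intro i
    have h1 : w0 y i ∈ b := by
      rcases i with _ | i
      · exact hy
      · exact hab (hw0a y i)
    obtain ⟨m, hm1, hm2, hm3⟩ := hcof _ h1
    exact ⟨m, (hw m).2 ⟨hm1, hm2⟩, hm3⟩)
  obtain ⟨q, hqw, hq0, hq⟩ := exists_q_in hN w (κ := Option A0) hmw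
  obtain ⟨B, hBw, hB0, hB⟩ := exists_B_in hN w (κ := Option A0) hmw hqw
  have hmc : m ∈ c := ((hw m).1 hmw).2
  have hqc : q ∈ c := ((hw q).1 hqw).2
  have hBc : B ∈ c := ((hw B).1 hBw).2
  have hBb : B ∈ b := ((hw B).1 hBw).1
  have hma : m ∈ a := hbca m ((hw m).1 hmw).1 hmc
  have hqa : q ∈ a := hbca q ((hw q).1 hqw).1 hqc
  -- the code can be chosen in `c`
  obtain ⟨s, hsc, hs⟩ : ∃ s ∈ c, (codeF φ).Realize (Sum.elim u ![m, q, B, s]) := by
    have huc : ∀ i, u i ∈ c := by
      intro i
      simp only [u]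
      split_ifs with hi
      · exact hi
      · exact zero_mem' c
    have h := exists_in c (γ := A0 ⊕ Fin 3) ((codeF φ).relabel
      (Sum.elim (fun i => Sum.inl (Sum.inl i)) ![Sum.inl (Sum.inr 0), Sum.inl (Sum.inr 1),
        Sum.inl (Sum.inr 2), Sum.inr 0])) (Sum.elim u ![m, q, B]) (by
        rintro (i | i)
        · exact huc i
        · fin_cases i
          · exact hmc
          · exact hqc
          · exact hBc)
    have he : ∀ s : N, (Sum.elim (Sum.elim u ![m, q, B]) fun _ : Fin 1 => s) ∘
        (Sum.elim (fun i => Sum.inl (Sum.inl i)) ![Sum.inl (Sum.inr 0), Sum.inl (Sum.inr 1),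
        Sum.inl (Sum.inr 2), Sum.inr 0] : A0 ⊕ Fin 4 → (A0 ⊕ Fin 3) ⊕ Fin 1) =
        Sum.elim u ![m, q, B, s] := by
      intro s
      funext i
      rcases i with i | i
      · simp
      · fin_cases i <;> simp
    simp only [Formula.realize_relabel, he] at h
    exact h (hN.exists_code φ u hq0 hq hB0 hB)
  rw [realize_codeF] at hs
  obtain ⟨hs1, hs2⟩ := hs
  have hs1' : Le s B := by simpa using hs1
  have hsb : s ∈ b := by
    by_contra hsb
    exact hN.lt_asymm (hend B hBb s hsb) hs1'
  have hsa : s ∈ a := hbca s hsb hsc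
  -- `y` is definable over `a`
  have hb0 : ∀ z, Le z m → ∀ i, Le (w0 z i) m := by
    intro z hz i
    rcases i with _ | i
    · exact hz
    · exact hm (some i)
  have hkey : ∀ z, Le z m → (Dvd' (1 + (cod (w0 z) + 1) * q) s ↔ z = y) := by
    intro z hz
    rw [← hφ z]
    have := hs2 (w0 z) (by simpa using hb0 z hz)
    simpa using this
  have hv := exists_in a (γ := A0 ⊕ Fin 3) ((valF (ι := A0)).relabel
      (Sum.elim (fun o : Option A0 => o.elim (Sum.inr 0) (fun i => Sum.inl (Sum.inl i)))
        ![Sum.inl (Sum.inr 0), Sum.inl (Sum.inr 1), Sum.inl (Sum.inr 2)]))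
      (Sum.elim (fun i => w0 y (some i)) ![m, q, s]) (by
        rintro (i | i)
        · exact hw0a y i
        · fin_cases i
          · exact hma
          · exact hqa
          · exact hsa)
  have hval : ∀ z : N, ((valF (ι := A0)).relabel
      (Sum.elim (fun o : Option A0 => o.elim (Sum.inr 0) (fun i => Sum.inl (Sum.inl i)))
        ![Sum.inl (Sum.inr 0), Sum.inl (Sum.inr 1), Sum.inl (Sum.inr 2)]) :
        Language.ring.Formula ((A0 ⊕ Fin 3) ⊕ Fin 1)).Realize
      (Sum.elim (Sum.elim (fun i => w0 y (some i)) ![m, q, s]) (fun _ => z)) ↔ z = y := by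
    intro z
    rw [Formula.realize_relabel, realize_valF]
    have hcod : (fun i : Option A0 => ((Sum.elim (Sum.elim (fun i => w0 y (some i)) ![m, q, s])
        (fun _ : Fin 1 => z)) ∘ (Sum.elim (fun o : Option A0 => o.elim (Sum.inr 0)
        (fun i => Sum.inl (Sum.inl i)))
        ![Sum.inl (Sum.inr 0), Sum.inl (Sum.inr 1), Sum.inl (Sum.inr 2)] :
          Option A0 ⊕ Fin 3 → (A0 ⊕ Fin 3) ⊕ Fin 1)) (Sum.inl i)) = w0 z := by
      funext i
      rcases i with _ | i
      · simp [w0]
      · simp [w0]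
    rw [hcod]
    simp only [Function.comp_apply, Sum.elim_inl, Sum.elim_inr, Option.elim_none,
      Matrix.cons_val_zero, Matrix.cons_val_one, Matrix.cons_val_two, Matrix.tail_cons,
      Matrix.head_cons]
    constructor
    · rintro ⟨h1, h2⟩
      exact (hkey z h1).mp h2
    · intro hz
      subst hz
      have h1 : Le z m := hm none
      exact ⟨h1, (hkey z h1).mpr rfl⟩
  simp only [hval] at hv
  obtain ⟨x, hx, hxy⟩ := hv ⟨y, rfl⟩
  rw [← hxy]
  exact hx

end

end Pool.InterPA
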