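import Pool.Agent.InterPA.Alg

/-!
# Transfer along elementary embeddings; elementary extensions of models of PA are models of PA
-/

open FirstOrder FirstOrder.Language FirstOrder.Ring

namespace Pool.InterPA

open Pool.Interstr

section

variable {M N : Type} [Language.ring.Structure M] [Language.ring.Structure N]

lemma transferE (f : M ↪ₑ[Language.ring] N) {α : Type} [Finite α] (φ : Language.ring.Formula α)
    (h : ∀ v : α → M, φ.Realize v) (v : α → N) : φ.Realize v := by
  have h1 := (f.map_sentence ((φ.relabel (Sum.inr : α → Empty ⊕ α)).iAlls α)).mp (by
    rw [Sentence.Realize, Formula.realize_iAlls]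
    intro w
    rw [Formula.realize_relabel]
    exact h _)
  rw [Sentence.Realize, Formula.realize_iAlls] at h1
  have h2 := h1 v
  rw [Formula.realize_relabel] at h2
  simpa using h2

end

variable {M N : Type} [CommSemiring M] [Neg M] [CompatibleRing M] [CommSemiring N] [Neg N]
  [CompatibleRing N]

theorem IsPA.of_embedding (hM : IsPA M) (f : M ↪ₑ[Language.ring] N) : IsPA N where
  neg_eq x := by
    have := transferE f (Term.equal (-(Term.var (0 : Fin 1))) (Term.var 0)) (fun v => by
      rw [Formula.realize_equal, realize_neg]
      exact hM.neg_eq _) ![x]
    rw [Formula.realize_equal] at this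
    simpa using this
  succ_ne_zero x := by
    have := transferE f
      (Term.equal ((Term.var (0 : Fin 1) : Language.ring.Term (Fin 1)) + 1) 0).not (fun v => by
      rw [Formula.realize_not, Formula.realize_equal]
      simpa using hM.succ_ne_zero (v 0)) ![x]
    rw [Formula.realize_not, Formula.realize_equal] at this
    simpa using this
  succ_inj x y h := by
    have := transferE f
      ((Term.equal ((Term.var (0 : Fin 2) : Language.ring.Term (Fin 2)) + 1)
        (Term.var 1 + 1)).imp (Term.equal (Term.var 0) (Term.var 1))) (fun v => by
      rw [Formula.realize_imp, Formula.realize_equal, Formula.realize_equal]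
      simpa using hM.succ_inj (v 0) (v 1)) ![x, y]
    rw [Formula.realize_imp, Formula.realize_equal, Formula.realize_equal] at this
    simpa using this (by simpa using h)
  induction s hs h0 h1 := by
    rw [Set.definable_iff_finitely_definable] at hs
    obtain ⟨A0, -, hs⟩ := hs
    rw [Set.definable_iff_exists_formula_sum] at hs
    obtain ⟨φ, hφ⟩ := hs
    have key := transferE f
      ((BoundedFormula.subst φ (Sum.elim Term.var (fun _ => 0)) :
          Language.ring.Formula A0).imp
        (((φ.imp (BoundedFormula.subst φ (Sum.elim (fun a => Term.var (Sum.inl a))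
          (fun _ => Term.var (Sum.inr (0 : Fin 1)) + 1)))).iAlls (Fin 1)).imp
          (φ.iAlls (Fin 1))))
      (fun v => by
        rw [Formula.realize_imp, Formula.realize_imp, Formula.realize_iAlls,
          Formula.realize_iAlls]
        intro h0 h1
        simp only [forall_fin_one, Formula.realize_imp] at h1 ⊢
        rw [subst_zero] at h0
        exact hM.ind φ v h0 (fun x hx => (subst_succ φ v x).mp (h1 x hx))) (fun a => (a : N))
    rw [Formula.realize_imp, Formula.realize_imp, Formula.realize_iAlls,
      Formula.realize_iAlls] at key
    simp only [forall_fin_one, Formula.realize_imp] at key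
    rw [hφ] at h0 h1 ⊢
    intro x
    exact key ((subst_zero φ _).mpr h0) (fun z hz => (subst_succ φ _ z).mpr (h1 z hz)) x

end Pool.InterPA
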